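import Pool.Agent.Lib.MP_8a5982_an.HOST.SumH
import Pool.Agent.Lib.MP_8a5982_an.HOST.SingH
import Pool.Agent.Lib.MP_8a5982_an.HOST.SN
import Pool.Agent.Lib.MP_8a5982_an.HOST.Exist
import Pool.Agent.Lib.MP_8a5982_an.HOST.Example
import Pool.Agent.Lib.MP_8a5982_an.HOST.Lebc

/-!
# Gaussian automorphisms: properties `S(m,n)` beyond singular spectrum
-/

open MeasureTheory HOST

namespace Pool.Agent.Results.MP_8a5982_an.CountableSums

theorem result :
    (∀ σ : ℕ → Measure UnitAddCircle, IsFiniteMeasure (Measure.sum σ) →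
      (∀ j, (σ j).map (fun x => -x) = σ j) → (∀ j x, σ j {x} = 0) →
      (∀ j k, 1 ≤ k → convPow (σ j) k ⟂ₘ (volume : Measure UnitAddCircle)) →
      ∀ μ : Measure (ℤ → ℝ), IsGaussianShift (Measure.sum σ) μ →
        ClassH shift μ ∧ ∀ m n : ℕ, 1 < m → m < n → HasS shift μ m n) ∧
    (∃ σ : ℕ → Measure UnitAddCircle, IsFiniteMeasure (Measure.sum σ) ∧
      (∀ j, (σ j).map (fun x => -x) = σ j) ∧ (∀ j x, σ j {x} = 0) ∧
      (∀ j k, 1 ≤ k → convPow (σ j) k ⟂ₘ (volume : Measure UnitAddCircle)) ∧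
      Measure.sum σ ⟂ₘ (volume : Measure UnitAddCircle) ∧
      ∃ μ : Measure (ℤ → ℝ), IsGaussianShift (Measure.sum σ) μ ∧
        ∃ f : (ℤ → ℝ) → ℂ, Measurable f ∧ MemLp f 2 μ ∧ IsSpectral shift μ f volume) := by
  constructor
  · intro σ hfin hsymm hna hpow μ hμ
    have hfj : ∀ j, IsFiniteMeasure (σ j) := fun j =>
      isFiniteMeasure_of_le (Measure.sum σ) (Measure.le_sum σ j)
    have hH : ClassH shift μ := by
      refine classH_sum σ hsymm ?_ μ hμ
      intro j τ hτ hτs hτac μ' hμ'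
      have := hfj j
      refine classH_of_singular τ hτs (fun x => hτac (hna j x)) (fun k hk => ?_) μ' hμ'
      exact (hpow j k hk).mono_ac (convPow_ac hτac k) Measure.AbsolutelyContinuous.rfl
    have hμp : IsProbabilityMeasure μ := hμ.1
    exact ⟨hH, fun m n hm hmn => classH_hasS shift μ hH m n hm hmn⟩
  · obtain ⟨σ₁, σ₂, p1, p2, s1, s2, a1, a2, c1, c2, hconv⟩ := exists_example
    let σ : ℕ → Measure UnitAddCircle := fun j => if j = 0 then σ₁ else if j = 1 then σ₂ else 0
    have e0 : σ 0 = σ₁ := by simp [σ]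
    have e1 : σ 1 = σ₂ := by simp [σ]
    have e2 : ∀ j, 2 ≤ j → σ j = 0 := fun j hj => by
      have h0 : j ≠ 0 := by omega
      have h1 : j ≠ 1 := by omega
      simp [σ, h0, h1]
    have cases : ∀ (P : Measure UnitAddCircle → Prop), P σ₁ → P σ₂ → P 0 → ∀ j, P (σ j) := by
      intro P h1 h2 h0 j
      rcases Nat.lt_or_ge j 2 with hj | hj
      · interval_cases j
        · rw [e0]; exact h1
        · rw [e1]; exact h2
      · rw [e2 j hj]; exact h0
    have hsum : Measure.sum σ = σ₁ + σ₂ := by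
      ext s hs
      rw [Measure.sum_apply _ hs, Measure.add_apply,
        tsum_eq_sum (s := Finset.range 2) (fun j hj => by
          rw [e2 j (by rw [Finset.mem_range] at hj; omega)]; rfl)]
      rw [Finset.sum_range_succ, Finset.sum_range_succ, Finset.sum_range_zero, zero_add, e0, e1]
    have conv0 : ∀ k, 1 ≤ k → convPow (0 : Measure UnitAddCircle) k ⟂ₘ
        (volume : Measure UnitAddCircle) := by
      intro k hk
      obtain ⟨k, rfl⟩ : ∃ j, k = j + 1 := ⟨k - 1, by omega⟩
      simp [convPow]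
    have hc1 : σ₁ ⟂ₘ (volume : Measure UnitAddCircle) := by
      have := c1 1 le_rfl
      simpa [convPow, Measure.conv_dirac_zero] using this
    have hc2 : σ₂ ⟂ₘ (volume : Measure UnitAddCircle) := by
      have := c2 1 le_rfl
      simpa [convPow, Measure.conv_dirac_zero] using this
    refine ⟨σ, ?_, ?_, ?_, ?_, ?_, ?_⟩
    · rw [hsum]; infer_instance
    · exact cases (fun τ => τ.map (fun x => -x) = τ) s1 s2 (by simp)
    · exact cases (fun τ => ∀ x, τ {x} = 0) a1 a2 (by simp)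
    · exact cases (fun τ => ∀ k, 1 ≤ k → convPow τ k ⟂ₘ (volume : Measure UnitAddCircle)) c1 c2
        conv0
    · rw [hsum]
      exact hc1.add_left hc2
    · rw [hsum]
      have hs : (σ₁ + σ₂).map (fun x => -x) = σ₁ + σ₂ := by
        rw [Measure.map_add _ _ measurable_neg, s1, s2]
      obtain ⟨μ, hμ⟩ := exists_gaussianShift (σ₁ + σ₂) hs
      exact ⟨μ, hμ, lebesgue_component σ₁ σ₂ s1 s2 (c1 2 (by norm_num)) hconv μ hμ⟩

end Pool.Agent.Results.MP_8a5982_an.CountableSums
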