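import Pool.Agent.Lib.MP_8a5982_an.FULL.Final2

/-!
# Ergodic Gaussian automorphisms of zero entropy have all the properties `S(m,n)`
-/

open MeasureTheory HOST FULL

namespace Pool.Agent.Results.MP_8a5982_an.ZeroEntropyGaussian

/-- Full positive answer to Q1, literally (first part) and in spectral terms (second part). -/
theorem result (σ : Measure UnitAddCircle) [IsFiniteMeasure σ]
    (hsymm : σ.map (fun x => -x) = σ) (μ : Measure (ℤ → ℝ)) (hμ : IsGaussianShift σ μ) :
    (Ergodic shift μ → ZeroEntropy shift μ → ∀ m n : ℕ, 1 < m → m < n → HasS shift μ m n) ∧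
    ((∀ x, σ {x} = 0) → σ ⟂ₘ (volume : Measure UnitAddCircle) →
      ∀ m n : ℕ, 1 < m → m < n → HasS shift μ m n) :=
  ⟨fun herg hent m n hm hmn => q1_literal σ hsymm μ hμ herg hent m n hm hmn,
    fun hna hsing m n hm hmn => full_final σ hsymm hna hsing μ hμ m n hm hmn⟩

end Pool.Agent.Results.MP_8a5982_an.ZeroEntropyGaussian
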